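import Mathlib

set_option autoImplicit false

namespace Pool.Agent.Results.MP_4aedba_al.NonComplete

open Filter Topology Set

/-- a non-discrete Hausdorff ring topology -/
def Good {R : Type} [NonUnitalRing R] (τ : TopologicalSpace R) : Prop :=
  @IsTopologicalRing R τ _ ∧ @T2Space R τ ∧ τ ≠ ⊥

/-- a maximal ring topology (in Mathlib `σ ≤ τ` means that `σ` is finer than `τ`) -/
def MaxRing {R : Type} [NonUnitalRing R] (τ : TopologicalSpace R) : Prop :=
  Good τ ∧ ∀ σ : TopologicalSpace R, Good σ → σ ≤ τ → σ = τ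

/-- every Cauchy filter (for the additive uniformity) converges -/
def Complete {R : Type} [NonUnitalRing R] (τ : TopologicalSpace R) : Prop :=
  ∀ F : Filter R, F.NeBot → Tendsto (fun p : R × R => p.1 - p.2) (F ×ˢ F) (@nhds R τ 0) →
    ∃ x, F ≤ @nhds R τ x

theorem zorn {R : Type} [NonUnitalRing R] (τ : TopologicalSpace R) (h : Good τ) :
    ∃ σ, σ ≤ τ ∧ MaxRing σ := by
  obtain ⟨σ, h1, h2⟩ := zorn_le_nonempty₀ (α := (TopologicalSpace R)ᵒᵈ)
      {σ : TopologicalSpace R | Good σ} (by
    intro (c : Set (TopologicalSpace R)) hc hch y hy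
    refine ⟨(sInf c : TopologicalSpace R), ⟨?_, ?_, ?_⟩, fun z hz => sInf_le (α := TopologicalSpace R) hz⟩
    · letI := sInf c
      haveI : ContinuousAdd R := continuousAdd_sInf fun t ht => by
        letI := t; haveI := (hc ht).1; infer_instance
      haveI : ContinuousMul R := continuousMul_sInf fun t ht => by
        letI := t; haveI := (hc ht).1; infer_instance
      haveI : ContinuousNeg R := continuousNeg_sInf fun t ht => by
        letI := t; haveI := (hc ht).1; infer_instance
      exact {}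
    · exact @T2Space.of_injective_continuous R R (sInf c) y (hc hy).2.1 id Function.injective_id
        (continuous_id_iff_le.mpr (sInf_le hy))
    · intro e
      have : ({0} : Set R) ∈ @nhds R (sInf c) 0 := by
        rw [e]
        letI : TopologicalSpace R := ⊥
        haveI : DiscreteTopology R := ⟨rfl⟩
        exact (isOpen_discrete _).mem_nhds rfl
      rw [nhds_sInf] at this
      replace this := (mem_biInf_of_directed (f := fun t : TopologicalSpace R => @nhds R t 0)
        (s := c) ?_ ⟨y, hy⟩).mp this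
      · obtain ⟨t, ht, h0⟩ := this
        letI := t
        haveI := (hc ht).1
        exact (hc ht).2.2 (discreteTopology_iff_isOpen_singleton_zero.mpr
          (isOpen_iff_mem_nhds.mpr fun x hx => hx ▸ h0)).eq_bot
      · intro a ha b hb
        rcases hch.total ha hb with g | g
        exacts [⟨b, hb, nhds_mono g, le_rfl⟩, ⟨a, ha, le_rfl, nhds_mono g⟩]) τ h
  exact ⟨σ, h1, h2.1, fun ρ hρ hle => le_antisymm hle (h2.2 hρ hle)⟩

abbrev V := ℕ →₀ ZMod 2

def R : Type := Module.End (ZMod 2) V × V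

noncomputable instance : AddCommGroup R := inferInstanceAs (AddCommGroup (Module.End (ZMod 2) V × V))

noncomputable instance : NonUnitalRing R where
  mul x y := (x.1 * y.1, x.1 y.2)
  left_distrib x y z := Prod.ext (mul_add x.1 y.1 z.1) (map_add x.1 y.2 z.2)
  right_distrib x y z := Prod.ext (add_mul x.1 y.1 z.1) rfl
  zero_mul x := Prod.ext (zero_mul x.1) rfl
  mul_zero x := Prod.ext (mul_zero x.1) (map_zero x.1)
  mul_assoc x y z := rfl

def N (s : Finset (V →ₗ[ZMod 2] ZMod 2)) : AddSubgroup R where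
  carrier := {x | x.1 = 0 ∧ ∀ f ∈ s, f x.2 = 0}
  zero_mem' := ⟨rfl, fun f _ => map_zero f⟩
  add_mem' {x y} hx hy := ⟨by change x.1 + y.1 = 0; rw [hx.1, hy.1, add_zero], fun f hf => by
    change f (x.2 + y.2) = 0; rw [map_add, hx.2 f hf, hy.2 f hf, add_zero]⟩
  neg_mem' {x} hx := ⟨by change -x.1 = 0; rw [hx.1]; ext; simp, fun f hf => by
    change f (-x.2) = 0; rw [map_neg, hx.2 f hf, neg_zero]⟩

theorem N_ne (s : Finset (V →ₗ[ZMod 2] ZMod 2)) : ∃ x ∈ N s, x ≠ 0 := by
  obtain ⟨a, b, hab, e⟩ := Finite.exists_ne_map_eq_of_infinite fun v : V => fun f : s => f.1 v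
  refine ⟨(0, a - b), ⟨rfl, fun f hf => ?_⟩, fun h => hab (sub_eq_zero.mp (congrArg Prod.snd h))⟩
  rw [map_sub, sub_eq_zero]
  exact congrFun e ⟨f, hf⟩

theorem start : ∃ τ : TopologicalSpace R, Good τ ∧ (N ∅ : Set R) ∈ @nhds R τ 0 := by
  classical
  let B : AddGroupFilterBasis R := addGroupFilterBasisOfComm (range fun s => (N s : Set R))
    (range_nonempty _) (by
      rintro _ _ ⟨s, rfl⟩ ⟨t, rfl⟩
      exact ⟨_, ⟨s ∪ t, rfl⟩, fun x hx => ⟨⟨hx.1, fun f hf => hx.2 f (by simp [hf])⟩,
        hx.1, fun f hf => hx.2 f (by simp [hf])⟩⟩)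
    (by rintro _ ⟨s, rfl⟩; exact (N s).zero_mem)
    (by
      rintro _ ⟨s, rfl⟩
      exact ⟨_, ⟨s, rfl⟩, by rintro _ ⟨x, hx, y, hy, rfl⟩; exact (N s).add_mem hx hy⟩)
    (by rintro _ ⟨s, rfl⟩; exact ⟨_, ⟨s, rfl⟩, fun x hx => (N s).neg_mem hx⟩)
  letI := B.topology
  haveI := B.isTopologicalAddGroup
  have hb : (𝓝 (0 : R)).HasBasis (fun _ => True) fun s => (N s : Set R) := by
    refine B.nhds_zero_hasBasis.to_hasBasis ?_ fun s _ => ⟨_, ⟨s, rfl⟩, le_rfl⟩
    rintro _ ⟨s, rfl⟩
    exact ⟨s, trivial, le_rfl⟩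
  refine ⟨B.topology, ⟨IsTopologicalRing.of_addGroup_of_nhds_zero ?_ ?_ ?_, ?_, fun e => ?_⟩,
    hb.mem_of_mem trivial⟩
  · refine hb.tendsto_right_iff.mpr fun s _ => ?_
    filter_upwards [prod_mem_prod (hb.mem_of_mem (i := ∅) trivial) univ_mem] with p hp
    refine ⟨?_, fun f _ => ?_⟩
    · change p.1.1 * p.2.1 = 0
      rw [hp.1.1, zero_mul]
    · change f (p.1.1 p.2.2) = 0
      rw [hp.1.1]; simp
  · intro x
    refine hb.tendsto_right_iff.mpr fun s _ => ?_
    filter_upwards [hb.mem_of_mem (i := s.image fun f => f ∘ₗ x.1) trivial] with y hy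
    refine ⟨?_, fun f hf => hy.2 _ (Finset.mem_image_of_mem _ hf)⟩
    change x.1 * y.1 = 0
    rw [hy.1, mul_zero]
  · intro x
    refine hb.tendsto_right_iff.mpr fun s _ => ?_
    filter_upwards [hb.mem_of_mem (i := ∅) trivial] with y hy
    refine ⟨?_, fun f _ => ?_⟩
    · change y.1 * x.1 = 0
      rw [hy.1, zero_mul]
    · change f (y.1 x.2) = 0
      rw [hy.1]; simp
  · refine IsTopologicalAddGroup.t2Space_of_zero_sep fun x hx => ?_
    by_cases h1 : x.1 = 0
    · obtain ⟨i, hi⟩ : ∃ i, x.2 i ≠ 0 := by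
        by_contra h
        push Not at h
        exact hx (Prod.ext h1 (Finsupp.ext h))
      exact ⟨_, hb.mem_of_mem (i := {Finsupp.lapply i}) trivial,
        fun h => hi (h.2 _ (Finset.mem_singleton_self _))⟩
    · exact ⟨_, hb.mem_of_mem (i := ∅) trivial, fun h => h1 h.1⟩
  · haveI : DiscreteTopology R := ⟨e⟩
    obtain ⟨s, -, hs⟩ := hb.mem_iff.mp ((isOpen_discrete {(0 : R)}).mem_nhds rfl)
    obtain ⟨x, h1, h2⟩ := N_ne s
    exact h2 (hs h1)

theorem avoid (U : Set V) (h : ∀ F : Finset V, ∃ v, ∀ f ∈ F, v - f ∉ U) :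
    ∃ φ : V →ₗ[ZMod 2] V, ∀ v, φ v ∈ U → v = 0 := by
  classical
  choose nx hnx using h
  let S : ℕ → Finset V := fun n => Nat.rec {0} (fun _ F => F ∪ F.image fun f => f + nx F) n
  let x : ℕ → V := fun n => nx (S n)
  let φ : V →ₗ[ZMod 2] V := Finsupp.linearCombination (ZMod 2) x
  have key : ∀ n (v : V), (∀ i ∈ v.support, i < n) → φ v ∈ S n ∧ (φ v ∈ U → v = 0) := by
    intro n
    induction n with
    | zero =>
      intro v hv
      obtain rfl : v = 0 := Finsupp.support_eq_empty.mp
        (Finset.eq_empty_of_forall_notMem fun i hi => by simpa using hv i hi)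
      exact ⟨by simp [S], fun _ => rfl⟩
    | succ n ih =>
      intro v hv
      have h1 := ih (v.erase n) fun i hi => by
        rw [Finsupp.support_erase, Finset.mem_erase] at hi
        have := hv i hi.2
        omega
      have e := Finsupp.erase_add_single n v
      have : v n = 0 ∨ v n = 1 := by generalize v n = t; revert t; decide
      rcases this with g | g
      · rw [g, Finsupp.single_zero, add_zero] at e
        rw [e] at h1
        exact ⟨Finset.mem_union_left _ h1.1, h1.2⟩
      · have e2 : φ v = φ (v.erase n) + x n := by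
          conv_lhs => rw [← e, map_add, g]
          simp [φ]
        rw [e2]
        refine ⟨Finset.mem_union_right _ (Finset.mem_image_of_mem _ h1.1), fun hu => ?_⟩
        refine absurd ?_ (hnx (S n) _ h1.1)
        rwa [sub_eq_add_neg, ZModModule.neg_eq_self, add_comm]
  exact ⟨φ, fun v => (key (v.support.sup id + 1) v fun i hi =>
    Nat.lt_succ_of_le (Finset.le_sup (f := id) hi)).2⟩

/-- There is a ring with a maximal ring topology that is not complete. -/
theorem result : ∃ (R : Type) (_ : NonUnitalRing R) (τ : TopologicalSpace R),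
    MaxRing τ ∧ ¬ Complete τ := by
  obtain ⟨τ0, h0, hN⟩ := start
  obtain ⟨τ, hle, hm⟩ := zorn τ0 h0
  refine ⟨R, inferInstance, τ, hm, fun hc => ?_⟩
  replace hN := nhds_mono hle hN
  clear hle h0 τ0
  letI := τ
  obtain ⟨⟨i1, i2, nd⟩, -⟩ := hm
  have disc : ({0} : Set R) ∉ 𝓝 (0 : R) := fun h => nd
    (discreteTopology_iff_isOpen_singleton_zero.mpr
      (isOpen_iff_mem_nhds.mpr fun x hx => hx ▸ h)).eq_bot
  have tb : ∀ U ∈ 𝓝 (0 : R), ∃ F : Finset V, ∀ v, ∃ f ∈ F, ((0, v - f) : R) ∈ U := by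
    intro U hU
    by_contra h
    push Not at h
    obtain ⟨φ, hφ⟩ := avoid {v | ((0, v) : R) ∈ U} h
    have c : Tendsto (fun y : R => (show R from (φ, 0)) * y) (𝓝 0) (𝓝 0) := by
      simpa using (continuous_mul_left (show R from (φ, 0))).tendsto 0
    refine disc (mem_of_superset (inter_mem hN (c hU)) ?_)
    rintro ⟨a, v⟩ ⟨⟨h1, -⟩, h2⟩
    obtain rfl : a = 0 := h1
    change ((φ * 0, φ v) : R) ∈ U at h2
    rw [mul_zero] at h2
    exact Prod.ext rfl (hφ v h2)
  have ho : IsOpen (N ∅ : Set R) := (N ∅).isOpen_of_mem_nhds hN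
  have hk : IsCompact (N ∅ : Set R) := by
    rw [isCompact_iff_ultrafilter_le_nhds]
    intro F hF
    obtain ⟨x, hx⟩ := hc F inferInstance (by
      intro U hU
      obtain ⟨W, hW, hWU⟩ := exists_nhds_half_neg hU
      obtain ⟨G, hG⟩ := tb W hW
      have : (⋃ f ∈ (G : Set V), {y : R | y - (show R from (0, f)) ∈ W}) ∈ F := by
        refine mem_of_superset (le_principal_iff.mp hF) ?_
        rintro ⟨a, v⟩ ⟨h1, -⟩
        obtain rfl : a = 0 := h1
        obtain ⟨f, hf, g⟩ := hG v
        exact mem_biUnion hf (by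
          change ((0 - 0, v - f) : R) ∈ W
          have e0 : (0 : Module.End (ZMod 2) V) - 0 = 0 := by ext; simp
          rw [e0]
          exact g)
      obtain ⟨f, -, hf⟩ := (Ultrafilter.finite_biUnion_mem_iff G.finite_toSet).mp this
      refine mem_map.mpr (mem_of_superset (prod_mem_prod hf hf) fun p hp => ?_)
      have := hWU _ hp.1 _ hp.2
      rwa [sub_sub_sub_cancel_right] at this)
    exact ⟨x, ((N ∅).isClosed_of_isOpen ho).mem_of_tendsto (f := id) hx (le_principal_iff.mp hF), hx⟩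
  haveI : CompactSpace (N ∅ : Set R) := isCompact_iff_compactSpace.mp hk
  haveI : Countable (N ∅ : Set R) := Function.Injective.countable (f := fun x => x.1.2)
    fun x y h => Subtype.ext (Prod.ext (x.2.1.trans y.2.1.symm) h)
  haveI : Nonempty (N ∅ : Set R) := ⟨⟨0, (N ∅).zero_mem⟩⟩
  obtain ⟨x, y, hy⟩ := nonempty_interior_of_iUnion_of_closed
    (f := fun x : (N ∅ : Set R) => {x}) (fun _ => isClosed_singleton) (iUnion_of_singleton _)
  obtain rfl : y = x := mem_singleton_iff.mp (interior_subset hy)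
  have h1 := ho.isOpenMap_subtype_val.image_mem_nhds (mem_interior_iff_mem_nhds.mp hy)
  rw [image_singleton] at h1
  have c : Tendsto (fun z : R => z + y.1) (𝓝 0) (𝓝 y.1) := by
    simpa using (continuous_add_right y.1).tendsto 0
  exact disc (mem_of_superset (c h1) fun z hz => by simpa using hz)

end Pool.Agent.Results.MP_4aedba_al.NonComplete
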